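import Mathlib
import Pool.Agent.helper82.Disc.Defs
import Pool.Agent.helper61.Disc.C1

namespace Pool.Agent.helper82.Disc
open Finset

section digits
variable {b : ℕ} [Fact b.Prime]

private theorem val_le (a : ZMod b) : ((a.val : ℝ)) + 1 ≤ b := by
  have hb : NeZero b := ⟨(Fact.out : b.Prime).ne_zero⟩
  have := ZMod.val_lt a
  exact_mod_cast this

private theorem bpos : (0 : ℝ) < b := by
  exact_mod_cast (Fact.out : b.Prime).pos

theorem om_mem (k : ℕ) (w : Fin k → ZMod b) : 0 ≤ om k w ∧ om k w ≤ 1 := by
  induction k with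
  | zero => simp [om]
  | succ k ih =>
    have h := ih (Fin.tail w)
    have hb : (0 : ℝ) < b := bpos (b := b)
    have hv := val_le (w 0)
    have h0 : (0 : ℝ) ≤ ((w 0).val : ℝ) := Nat.cast_nonneg _
    simp only [om]
    constructor
    · apply div_nonneg _ hb.le
      linarith [h.1]
    · rw [div_le_one hb]
      linarith [h.2]

theorem psi_abs (w0 : ZMod b) (o : ℝ) (h0 : 0 ≤ o) (h1 : o ≤ 1) (y : ZMod b) :
    |psi w0 o y| ≤ 1 := by
  have hb : (0 : ℝ) < b := bpos (b := b)
  have hv := val_le w0
  have hw : (0 : ℝ) ≤ (w0.val : ℝ) := Nat.cast_nonneg _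
  have hA : 0 ≤ ((w0.val : ℝ) + o) / b := div_nonneg (by linarith) hb.le
  have hB : ((w0.val : ℝ) + o) / b ≤ 1 := by
    rw [div_le_one hb]; linarith
  unfold psi
  rw [abs_le]
  by_cases hlt : y.val < w0.val
  · have hne : y ≠ w0 := by
      rintro rfl
      exact lt_irrefl _ hlt
    simp only [hlt, if_true, hne, if_false]
    constructor <;> linarith
  · by_cases he : y = w0
    · simp only [if_false, he, if_true, lt_irrefl]
      constructor <;> linarith
    · simp only [hlt, if_false, he]
      constructor <;> linarith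

private theorem card_lt (w0 : ZMod b) :
    (∑ y : ZMod b, (if y.val < w0.val then (1 : ℝ) else 0)) = (w0.val : ℝ) := by
  have hb : NeZero b := ⟨(Fact.out : b.Prime).ne_zero⟩
  rw [Finset.sum_boole]
  congr 1
  have : (Finset.univ.filter (fun y : ZMod b => y.val < w0.val)).card
      = (Finset.range w0.val).card := by
    apply Finset.card_bij (fun y _ => y.val)
    · intro a ha
      simpa using ha
    · intro a _ c _ h
      exact ZMod.val_injective b h
    · intro c hc
      have hc' : c < w0.val := by simpa using hc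
      have hcb : c < b := lt_trans hc' (ZMod.val_lt w0)
      refine ⟨(c : ZMod b), ?_, ?_⟩
      · simp only [Finset.mem_filter, Finset.mem_univ, true_and]
        rw [ZMod.val_natCast_of_lt hcb]
        exact hc'
      · exact ZMod.val_natCast_of_lt hcb
  rw [this, Finset.card_range]

theorem psi_sum (w0 : ZMod b) (o : ℝ) : ∑ y, psi w0 o y = 0 := by
  have hb : (0 : ℝ) < b := bpos (b := b)
  unfold psi
  rw [Finset.sum_sub_distrib, Finset.sum_add_distrib, card_lt]
  rw [Finset.sum_ite_eq' Finset.univ w0 (fun _ => o)]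
  simp only [Finset.mem_univ, if_true, Finset.sum_const, Finset.card_univ, ZMod.card, nsmul_eq_mul]
  field_simp
  ring

theorem Dsum_succ (k : ℕ) (P : Params (ZMod b) (k + 1)) (S : Str (ZMod b) (k + 1)) (hS : S.Good)
    (w : Fin (k + 1) → ZMod b) :
    Dsum (k + 1) P S w = rowSum S (psi (w 0) (om k (Fin.tail w))) P.1.1 P.1.2
      + Dsum k P.2 (S.transport P.1.1 P.1.2 (w 0)) (Fin.tail w) := by
  obtain ⟨⟨e, m⟩, Q⟩ := P
  have key : ∀ v : Fin (k + 1) → ZMod b,
      S.beta v * (lt01 (k + 1) (Y (k + 1) ((e, m), Q) v) w - om (k + 1) w)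
      = S.beta v * psi (w 0) (om k (Fin.tail w)) (ydig e m v)
        + (if ydig e m v = w 0 then
            (S.transport e m (w 0)).beta (nxt e m v) *
              (lt01 k (Y k Q (nxt e m v)) (Fin.tail w) - om k (Fin.tail w)) else 0) := by
    intro v
    by_cases hv : ydig e m v = w 0
    · rw [if_pos hv, transport_beta S hS e m (w 0) v hv]
      simp only [Y, lt01, om, psi, Fin.cons_zero, Fin.tail_cons, hv, lt_irrefl, if_false, if_true]
      ring
    · rw [if_neg hv]
      simp only [Y, lt01, om, psi, Fin.cons_zero, Fin.tail_cons, hv, if_false]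
      ring
  have hsum : Dsum (k + 1) ((e, m), Q) S w
      = rowSum S (psi (w 0) (om k (Fin.tail w))) e m
      + ∑ v : Fin (k + 1) → ZMod b, (if ydig e m v = w 0 then
            (S.transport e m (w 0)).beta (nxt e m v) *
              (lt01 k (Y k Q (nxt e m v)) (Fin.tail w) - om k (Fin.tail w)) else 0) := by
    unfold Dsum rowSum
    rw [← Finset.sum_add_distrib]
    exact Finset.sum_congr rfl (fun v _ => key v)
  have hbij := (Equiv.ofBijective _ (nxt_bij (F := ZMod b) e m)).sum_comp
    (fun p : ZMod b × (Fin k → ZMod b) => if p.1 = w 0 then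
            (S.transport e m (w 0)).beta p.2 *
              (lt01 k (Y k Q p.2) (Fin.tail w) - om k (Fin.tail w)) else 0)
  simp only [Equiv.ofBijective_apply] at hbij
  change Dsum (k + 1) ((e, m), Q) S w = rowSum S (psi (w 0) (om k (Fin.tail w))) e m
      + Dsum k Q (S.transport e m (w 0)) (Fin.tail w)
  rw [hsum, hbij]
  congr 1
  rw [Fintype.sum_prod_type]
  rw [Finset.sum_eq_single (w 0)]
  · simp only [if_true, Dsum]
  · intro y _ hy
    simp only [if_neg hy, Finset.sum_const_zero]
  · intro h
    exact absurd (Finset.mem_univ _) h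

end digits

end Pool.Agent.helper82.Disc
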